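import Pool.Agent.X318.Crown

/-!
`Pool.Agent.X318.Crown.fvec n` is the `f`-vector `(f_{-1}, f_0, ..., f_{2n})` of the order polytope
of the crown `C_{2n}`, index shifted by one, given by the known face number formula.
-/

namespace Pool.Agent.Results.MP_6e91db_co.LogConcave
open Pool.Agent.X318.Crown Polynomial

/-- the `f`-polynomial `∑ f_i t^(i+1)` of the order polytope of the crown `C_{2n}` -/
noncomputable def crownPoly (n : ℕ) : ℚ[X] := ∑ j ∈ Finset.range (2 * n + 2), C (fvec n j) * X ^ j

/-- the `f`-polynomial of the order polytope of the face lattice of the `n`-gon (double pyramid) -/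
noncomputable def polygonPoly (n : ℕ) : ℚ[X] := (1 + X) ^ 2 * crownPoly n

def TP (p : ℚ[X]) (N : ℕ) : Prop := (∀ k, 0 ≤ p.coeff k) ∧ (∀ k, k ≤ N → 0 < p.coeff k) ∧
  ∀ i j, i ≤ j → p.coeff i * p.coeff (j + 2) ≤ p.coeff (i + 1) * p.coeff (j + 1)

lemma tp_mul (p : ℚ[X]) (N : ℕ) (h : TP p N) : TP ((1 + X) * p) (N + 1) := by
  obtain ⟨h0, hp, h2⟩ := h
  have e0 : ((1 + X) * p).coeff 0 = p.coeff 0 := by simp [add_mul]
  have es : ∀ k, ((1 + X) * p).coeff (k + 1) = p.coeff (k + 1) + p.coeff k := by
    intro k; simp [add_mul, coeff_X_mul]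
  refine ⟨fun k => ?_, fun k hk => ?_, fun i j hij => ?_⟩
  · rcases k with _ | k
    · rw [e0]; exact h0 0
    · rw [es]; exact add_nonneg (h0 _) (h0 _)
  · rcases k with _ | k
    · rw [e0]; exact hp 0 (by omega)
    · rw [es]; exact add_pos_of_nonneg_of_pos (h0 _) (hp k (by omega))
  · rw [show j + 2 = (j + 1) + 1 from rfl, es (j + 1), es j, es i]
    have mono : ∀ a b, a ≤ b → p.coeff a * p.coeff (b + 1) ≤ p.coeff (a + 1) * p.coeff b := by
      intro a b hab
      rcases Nat.eq_or_lt_of_le hab with rfl | hlt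
      · rw [mul_comm]
      · obtain ⟨c, rfl⟩ : ∃ c, b = c + 1 := ⟨b - 1, by omega⟩
        exact h2 a c (by omega)
    rcases i with _ | i
    · rw [e0]
      have a1 := h2 0 j (by omega)
      have a2 := mono 0 j (by omega)
      have a3 := mul_nonneg (h0 0) (h0 j)
      have a5 := mul_nonneg (h0 1) (h0 j)
      rw [show j + 1 + 1 = j + 2 from rfl]
      simp only [zero_add] at *
      nlinarith
    · rw [es i]
      have a1 := h2 (i + 1) j (by omega)
      have a2 := mono (i + 1) j (by omega)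
      have a3 : p.coeff i * p.coeff (j + 1) ≤ p.coeff (i + 1) * p.coeff j := mono i j (by omega)
      have a4 := h2 i j (by omega)
      rw [show j + 1 + 1 = j + 2 from rfl]
      nlinarith

lemma crown_coeff (n j : ℕ) : (crownPoly n).coeff j = if j < 2 * n + 2 then fvec n j else 0 := by
  rw [crownPoly, finsetSum_coeff]
  simp only [coeff_C_mul, coeff_X_pow]
  simp only [mul_ite, mul_one, mul_zero]
  rw [Finset.sum_ite_eq]
  simp

lemma crown_tp (n : ℕ) (hn : 1 ≤ n) : TP (crownPoly n) (2 * n + 1) := by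
  have hpos : ∀ k, k ≤ 2 * n + 1 → 0 < (crownPoly n).coeff k := by
    intro k hk
    rw [crown_coeff, if_pos (by omega)]
    exact fvec_pos n k hn hk
  have hz : ∀ k, 2 * n + 1 < k → (crownPoly n).coeff k = 0 := by
    intro k hk
    rw [crown_coeff, if_neg (by omega)]
  have hnn : ∀ k, 0 ≤ (crownPoly n).coeff k := by
    intro k
    rcases Nat.lt_or_ge (2 * n + 1) k with h | h
    · rw [hz k h]
    · exact (hpos k h).le
  have hlc : ∀ j, (crownPoly n).coeff j * (crownPoly n).coeff (j + 2) ≤ (crownPoly n).coeff (j + 1) ^ 2 := by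
    intro j
    rcases Nat.lt_or_ge (2 * n + 1) (j + 2) with h | h
    · rw [hz _ h]; simp; positivity
    · rw [crown_coeff, crown_coeff, crown_coeff, if_pos (by omega), if_pos (by omega), if_pos (by omega)]
      exact fvec_lc n (j + 1) hn (by omega)
  refine ⟨hnn, hpos, fun i j hij => ?_⟩
  obtain ⟨d, rfl⟩ := Nat.exists_eq_add_of_le hij
  clear hij
  induction d with
  | zero => have := hlc i; simp only [add_zero]; nlinarith
  | succ d ih =>
    rcases Nat.lt_or_ge (2 * n + 1) (i + (d + 1) + 2) with h | h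
    · rw [hz _ h, mul_zero]; exact mul_nonneg (hnn _) (hnn _)
    · have h1 := hlc (i + d + 1)
      have p1 := hpos (i + d + 1) (by omega)
      rw [show i + (d + 1) + 2 = i + d + 3 by ring, show i + (d + 1) + 1 = i + d + 2 by ring]
      rw [show i + d + 1 + 2 = i + d + 3 by ring, show i + d + 1 + 1 = i + d + 2 by ring] at h1
      have h2 : (crownPoly n).coeff (i + d + 1) * ((crownPoly n).coeff i * (crownPoly n).coeff (i + d + 3))
          ≤ (crownPoly n).coeff (i + d + 1) * ((crownPoly n).coeff (i + 1) * (crownPoly n).coeff (i + d + 2)) := by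
        have a1 := mul_le_mul_of_nonneg_left h1 (hnn i)
        have a2 := mul_le_mul_of_nonneg_right ih (hnn (i + d + 2))
        nlinarith
      exact le_of_mul_le_mul_left h2 p1

theorem result (n : ℕ) (hn : 3 ≤ n) :
    (polygonPoly n).natDegree = 2 * n + 3 ∧
    (∀ j, j ≤ 2 * n + 3 → 0 < (polygonPoly n).coeff j) ∧
    (∀ j, 1 ≤ j → j ≤ 2 * n + 2 →
      (polygonPoly n).coeff (j - 1) * (polygonPoly n).coeff (j + 1) ≤ (polygonPoly n).coeff j ^ 2) := by
  have h : TP (polygonPoly n) (2 * n + 1 + 1 + 1) := by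
    rw [polygonPoly, pow_two, mul_assoc]
    exact tp_mul _ _ (tp_mul _ _ (crown_tp n (by omega)))
  refine ⟨?_, h.2.1, ?_⟩
  · apply le_antisymm
    · have d1 : ((1 + X) ^ 2 : ℚ[X]).natDegree ≤ 2 := by
        refine natDegree_pow_le.trans ?_
        have : (1 + X : ℚ[X]).natDegree ≤ 1 := (natDegree_add_le _ _).trans (by simp)
        omega
      have d2 : (crownPoly n).natDegree ≤ 2 * n + 1 := by
        rw [natDegree_le_iff_coeff_eq_zero]
        intro k hk
        rw [crown_coeff, if_neg (by omega)]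
      have := natDegree_mul_le (p := ((1 + X) ^ 2 : ℚ[X])) (q := crownPoly n)
      rw [polygonPoly]; omega
    · exact le_natDegree_of_ne_zero (h.2.1 _ le_rfl).ne'
  · intro j hj _
    obtain ⟨i, rfl⟩ : ∃ i, j = i + 1 := ⟨j - 1, by omega⟩
    have := h.2.2 i i le_rfl
    rw [pow_two]
    exact this

end Pool.Agent.Results.MP_6e91db_co.LogConcave
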